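import Pool.Agent.H598.FI.More

/-!
# Weak approximation for fibrations in diagonal hypersurfaces over `F(t)`

Let `F` be a finite field and `K = F(t)`. Let `G` be a set of polynomials in `m` variables over `K`
and let `a_1, ..., a_s` be polynomials in `m` variables over `K`. For a field `L` containing `K`,
`Base G a L` is the set of the points `u` of `L ^ m` with `g(u) = 0` for all `g` in `G` and
`a_i(u) ≠ 0` for all `i`: the `L`-points of an (arbitrary) affine variety `B`, from which the zeros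
of the `a_i` are removed. `Cone G a k L` is the set of the pairs `(u, x)`, `u` in `Base G a L`,
`x ≠ 0` in `L ^ s`, with `a_1(u) x_1 ^ k + ... + a_s(u) x_s ^ k = 0`, and `Total G a k L` its
quotient by the action of the multiplicative group of `L` on `x`: the `L`-points of the family `V`,
over `B`, of the hypersurfaces with the equations `a_1(u) x_1 ^ k + ... + a_s(u) x_s ^ k = 0` in the
projective space of dimension `s - 1`. The places of `K` are the prime ideals `v ≠ 0` of `F[t]`, with
the completions `v.adicCompletion K`, and the place at infinity with the completion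
`RatFunc.CompletionAtInfty F`.
-/

namespace Pool.Agent.Results.MP_12adaf_nt.FibrationsInDiagonals

open Polynomial IsDedekindDomain

variable {K : Type*} [Field K] {m s : ℕ}

/-- The `L`-points of the base, with the topology induced from `L ^ m`. -/
def Base (G : Set (MvPolynomial (Fin m) K)) (a : Fin s → MvPolynomial (Fin m) K)
    (L : Type*) [Field L] [Algebra K L] : Set (Fin m → L) :=
  {u | (∀ g ∈ G, MvPolynomial.aeval u g = 0) ∧ ∀ i, MvPolynomial.aeval u (a i) ≠ 0}

/-- The pairs of an `L`-point of the base and a non-zero solution in the fibre over it, with the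
topology induced from `L ^ m × L ^ s`. -/
def Cone (G : Set (MvPolynomial (Fin m) K)) (a : Fin s → MvPolynomial (Fin m) K) (k : ℕ)
    (L : Type*) [Field L] [Algebra K L] : Set ((Fin m → L) × (Fin s → L)) :=
  {p | p.1 ∈ Base G a L ∧ p.2 ≠ 0 ∧ ∑ i, MvPolynomial.aeval p.1 (a i) * p.2 i ^ k = 0}

/-- Two pairs lie over the same point and their solutions are proportional. -/
def totalSetoid (G : Set (MvPolynomial (Fin m) K)) (a : Fin s → MvPolynomial (Fin m) K) (k : ℕ)
    (L : Type*) [Field L] [Algebra K L] : Setoid (Cone G a k L) where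
  r x y := y.1.1 = x.1.1 ∧ ∃ c : L, c ≠ 0 ∧ ∀ i, y.1.2 i = c * x.1.2 i
  iseqv :=
    { refl := fun x => ⟨rfl, 1, one_ne_zero, fun i => (one_mul _).symm⟩
      symm := fun {x y} h => by
        obtain ⟨h0, c, hc, h⟩ := h
        exact ⟨h0.symm, c⁻¹, inv_ne_zero hc, fun i => by rw [h i, inv_mul_cancel_left₀ hc]⟩
      trans := fun {x y z} h h' => by
        obtain ⟨h0, c, hc, h⟩ := h
        obtain ⟨h0', d, hd, h'⟩ := h'
        exact ⟨h0'.trans h0, d * c, mul_ne_zero hd hc, fun i => by rw [h' i, h i, mul_assoc]⟩ }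

/-- The `L`-points of the family of hypersurfaces. -/
def Total (G : Set (MvPolynomial (Fin m) K)) (a : Fin s → MvPolynomial (Fin m) K) (k : ℕ)
    (L : Type*) [Field L] [Algebra K L] : Type _ :=
  Quotient (totalSetoid G a k L)

/-- The `L`-points carry the quotient topology. -/
instance (G : Set (MvPolynomial (Fin m) K)) (a : Fin s → MvPolynomial (Fin m) K) (k : ℕ)
    (L : Type*) [Field L] [Algebra K L] [TopologicalSpace L] : TopologicalSpace (Total G a k L) :=
  instTopologicalSpaceQuotient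

variable {G : Set (MvPolynomial (Fin m) K)} {a : Fin s → MvPolynomial (Fin m) K} {k : ℕ}

/-- A `K`-point of the base as an `L`-point. -/
def extendBase (L : Type*) [Field L] [Algebra K L] (u : Base G a K) : Base G a L :=
  ⟨fun j => algebraMap K L (u.1 j), by
    refine ⟨fun g hg => ?_, fun i h0 => ?_⟩
    · rw [Pool.Agent.H598.FI.aeval_alg, u.2.1 g hg, map_zero]
    · rw [Pool.Agent.H598.FI.aeval_alg] at h0
      exact u.2.2 i ((_root_.map_eq_zero _).1 h0)⟩

/-- A pair over `K` as a pair over `L`. -/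
def extend (L : Type*) [Field L] [Algebra K L] (p : Cone G a k K) : Cone G a k L :=
  ⟨(fun j => algebraMap K L (p.1.1 j), fun i => algebraMap K L (p.1.2 i)), by
    refine ⟨(extendBase L ⟨p.1.1, p.2.1⟩).2, ?_, ?_⟩
    · intro h
      apply p.2.2.1
      funext i
      have h1 : algebraMap K L (p.1.2 i) = 0 := congrFun h i
      exact (_root_.map_eq_zero _).1 h1
    · have h2 := congrArg (algebraMap K L) p.2.2.2
      rw [map_zero, map_sum] at h2
      refine Eq.trans (Finset.sum_congr rfl (fun i _ => ?_)) h2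
      rw [map_mul, map_pow, ← Pool.Agent.H598.FI.aeval_alg]⟩

/-- The point of the family given by a pair. -/
def point {L : Type*} [Field L] [Algebra K L] (x : Cone G a k L) : Total G a k L :=
  Quotient.mk (totalSetoid G a k L) x

/-- The `L`-points of the family of affine hypersurfaces
`a_1(u) x_1 ^ k + ... + a_s(u) x_s ^ k = b(u)`, over the set of the `u` in affine space where the
`a_i` and `b` do not vanish. -/
def Affine (a : Fin s → MvPolynomial (Fin m) K) (b : MvPolynomial (Fin m) K) (k : ℕ)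
    (L : Type*) [Field L] [Algebra K L] : Set ((Fin m → L) × (Fin s → L)) :=
  {p | ((∀ i, MvPolynomial.aeval p.1 (a i) ≠ 0) ∧ MvPolynomial.aeval p.1 b ≠ 0) ∧
    ∑ i, MvPolynomial.aeval p.1 (a i) * p.2 i ^ k = MvPolynomial.aeval p.1 b}

/-- A `K`-point of the affine family as an `L`-point. -/
def extendAffine {a : Fin s → MvPolynomial (Fin m) K} {b : MvPolynomial (Fin m) K} {k : ℕ}
    (L : Type*) [Field L] [Algebra K L] (p : Affine a b k K) : Affine a b k L :=
  ⟨(fun j => algebraMap K L (p.1.1 j), fun i => algebraMap K L (p.1.2 i)), by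
    refine ⟨⟨fun i h0 => ?_, fun h0 => ?_⟩, ?_⟩
    · rw [Pool.Agent.H598.FI.aeval_alg] at h0
      exact p.2.1.1 i ((_root_.map_eq_zero _).1 h0)
    · rw [Pool.Agent.H598.FI.aeval_alg] at h0
      exact p.2.1.2 ((_root_.map_eq_zero _).1 h0)
    · have h2 := congrArg (algebraMap K L) p.2.2
      rw [map_sum, ← Pool.Agent.H598.FI.aeval_alg] at h2
      refine Eq.trans (Finset.sum_congr rfl (fun i _ => ?_)) h2
      rw [map_mul, map_pow, ← Pool.Agent.H598.FI.aeval_alg]⟩

/-- The solutions `y` in `L ^ m` of `Φ_1(y) + ... + Φ_s(y) = 0` with all `Φ_i(y) ≠ 0`. -/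
def Forms (Φ : Fin s → MvPolynomial (Fin m) K) (L : Type*) [Field L] [Algebra K L] :
    Set (Fin m → L) :=
  {y | (∀ i, MvPolynomial.aeval y (Φ i) ≠ 0) ∧ ∑ i, MvPolynomial.aeval y (Φ i) = 0}

/-- A solution in `K` as a solution in `L`. -/
def extendForms {Φ : Fin s → MvPolynomial (Fin m) K} (L : Type*) [Field L] [Algebra K L]
    (y : Forms Φ K) : Forms Φ L :=
  ⟨fun j => algebraMap K L (y.1 j), by
    refine ⟨fun i h0 => ?_, ?_⟩
    · rw [Pool.Agent.H598.FI.aeval_alg] at h0
      exact y.2.1 i ((_root_.map_eq_zero _).1 h0)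
    · have h2 := congrArg (algebraMap K L) y.2.2
      rw [map_sum, map_zero] at h2
      refine Eq.trans (Finset.sum_congr rfl (fun i _ => ?_)) h2
      rw [Pool.Agent.H598.FI.aeval_alg]⟩

/-- Weak approximation for the base: the `K`-points are dense in the product over ALL places of the
spaces of points over the completions. -/
def BaseWA {F : Type*} [Field F] [DecidableEq (RatFunc F)] {m s : ℕ}
    (G : Set (MvPolynomial (Fin m) (RatFunc F)))
    (a : Fin s → MvPolynomial (Fin m) (RatFunc F)) : Prop :=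
  DenseRange (fun z : Base G a (RatFunc F) =>
    ((fun v => extendBase (v.adicCompletion (RatFunc F)) z,
      extendBase (RatFunc.CompletionAtInfty F) z) :
      (∀ v : HeightOneSpectrum F[X], Base G a (v.adicCompletion (RatFunc F))) ×
        Base G a (RatFunc.CompletionAtInfty F)))

/-- Weak approximation for the affine cones over the fibres. -/
def ConeWA {F : Type*} [Field F] [DecidableEq (RatFunc F)] {m s : ℕ}
    (G : Set (MvPolynomial (Fin m) (RatFunc F)))
    (a : Fin s → MvPolynomial (Fin m) (RatFunc F)) (k : ℕ) : Prop :=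
  DenseRange (fun z : Cone G a k (RatFunc F) =>
    ((fun v => extend (v.adicCompletion (RatFunc F)) z, extend (RatFunc.CompletionAtInfty F) z) :
      (∀ v : HeightOneSpectrum F[X], Cone G a k (v.adicCompletion (RatFunc F))) ×
        Cone G a k (RatFunc.CompletionAtInfty F)))

/-- Weak approximation for the family of hypersurfaces. -/
def TotalWA {F : Type*} [Field F] [DecidableEq (RatFunc F)] {m s : ℕ}
    (G : Set (MvPolynomial (Fin m) (RatFunc F)))
    (a : Fin s → MvPolynomial (Fin m) (RatFunc F)) (k : ℕ) : Prop :=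
  DenseRange (fun z : Cone G a k (RatFunc F) =>
    ((fun v => point (extend (v.adicCompletion (RatFunc F)) z),
      point (extend (RatFunc.CompletionAtInfty F) z)) :
      (∀ v : HeightOneSpectrum F[X], Total G a k (v.adicCompletion (RatFunc F))) ×
        Total G a k (RatFunc.CompletionAtInfty F)))

/-- Weak approximation for the affine families. -/
def AffineWA {F : Type*} [Field F] [DecidableEq (RatFunc F)] {m s : ℕ}
    (a : Fin s → MvPolynomial (Fin m) (RatFunc F)) (b : MvPolynomial (Fin m) (RatFunc F))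
    (k : ℕ) : Prop :=
  DenseRange (fun z : Affine a b k (RatFunc F) =>
    ((fun v => extendAffine (v.adicCompletion (RatFunc F)) z,
      extendAffine (RatFunc.CompletionAtInfty F) z) :
      (∀ v : HeightOneSpectrum F[X], Affine a b k (v.adicCompletion (RatFunc F))) ×
        Affine a b k (RatFunc.CompletionAtInfty F)))

/-- Weak approximation for sums of forms. -/
def FormsWA {F : Type*} [Field F] [DecidableEq (RatFunc F)] {m s : ℕ}
    (Φ : Fin s → MvPolynomial (Fin m) (RatFunc F)) : Prop :=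
  DenseRange (fun z : Forms Φ (RatFunc F) =>
    ((fun v => extendForms (v.adicCompletion (RatFunc F)) z,
      extendForms (RatFunc.CompletionAtInfty F) z) :
      (∀ v : HeightOneSpectrum F[X], Forms Φ (v.adicCompletion (RatFunc F))) ×
        Forms Φ (RatFunc.CompletionAtInfty F)))

lemma total_of_cone {F : Type*} [Field F] [DecidableEq (RatFunc F)] {m s k : ℕ}
    {G : Set (MvPolynomial (Fin m) (RatFunc F))}
    {a : Fin s → MvPolynomial (Fin m) (RatFunc F)} (h : ConeWA G a k) : TotalWA G a k := by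
  let g : ((∀ v : HeightOneSpectrum F[X], Cone G a k (v.adicCompletion (RatFunc F))) ×
        Cone G a k (RatFunc.CompletionAtInfty F)) →
      ((∀ v : HeightOneSpectrum F[X], Total G a k (v.adicCompletion (RatFunc F))) ×
        Total G a k (RatFunc.CompletionAtInfty F)) := fun x => (fun v => point (x.1 v), point x.2)
  have hg : Continuous g := by
    refine Continuous.prodMk ?_ ?_
    · apply continuous_pi
      intro v
      exact continuous_quotient_mk'.comp ((continuous_apply v).comp continuous_fst)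
    · exact continuous_quotient_mk'.comp continuous_snd
  have hgs : Function.Surjective g := by
    intro y
    refine ⟨(fun v => (y.1 v).out, y.2.out), ?_⟩
    apply Prod.ext
    · funext v
      exact Quotient.out_eq _
    · exact Quotient.out_eq _
  exact hgs.denseRange.comp h hg

lemma cone_of_base {k : ℕ} (hk : 2 ≤ k) {F : Type*} [Field F] [Fintype F]
    [DecidableEq (RatFunc F)] (hchar : k < ringChar F)
    (hq : (8 * k) ^ (k * 2 ^ k) ≤ Fintype.card F) {m s : ℕ} (hs : 2 * k + 1 ≤ s)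
    {G : Set (MvPolynomial (Fin m) (RatFunc F))}
    {a : Fin s → MvPolynomial (Fin m) (RatFunc F)} (h : BaseWA G a) : ConeWA G a k := by
  have hch : ∀ i : ℕ, 1 ≤ i → i ≤ k → ((i : ℕ) : F) ≠ 0 := by
    intro i h1 h2 h0
    have h3 : ringChar F ∣ i := (ringChar.spec F i).1 h0
    have := Nat.le_of_dvd (by omega) h3
    omega
  have hbig : Pool.Agent.H598.FQ.Big (Fintype.card F) k := Pool.Agent.H598.FQ.big_of_le hk hq
  classical
  intro x
  rw [mem_closure_iff_nhds]
  intro W hW
  rw [nhds_prod_eq, Filter.mem_prod_iff] at hW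
  obtain ⟨W1, hW1, W2, hW2, hW⟩ := hW
  rw [nhds_pi, Filter.mem_pi] at hW1
  obtain ⟨S, hSf, V, hV, hVW⟩ := hW1
  have hVU : ∀ v : HeightOneSpectrum F[X], ∃ U ∈ nhds (x.1 v).1,
      Subtype.val ⁻¹' U ⊆ V v := by
    intro v
    exact (mem_nhds_subtype _ _ _).1 (hV v)
  choose U hU hUV using hVU
  obtain ⟨U2, hU2, hU2W⟩ := (mem_nhds_subtype _ _ _).1 hW2
  obtain ⟨T, Ti, hT, hTi, hTc⟩ := Pool.Agent.H598.FI.fib_explicit hk hch hbig hs a hSf.toFinset
    (fun v => (x.1 v).1.1) (fun v => (x.1 v).1.2) (fun v => (x.1 v).2.1.2)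
    (fun v => (x.1 v).2.2.1) (fun v => (x.1 v).2.2.2)
    x.2.1.1 x.2.1.2 x.2.2.1.2 x.2.2.2.1 x.2.2.2.2 U hU U2 hU2
  -- the point of the base
  let b : (∀ v : HeightOneSpectrum F[X], Base G a (v.adicCompletion (RatFunc F))) ×
      Base G a (RatFunc.CompletionAtInfty F) :=
    (fun v => ⟨(x.1 v).1.1, (x.1 v).2.1⟩, ⟨x.2.1.1, x.2.2.1⟩)
  have hR : {y : (∀ v : HeightOneSpectrum F[X], Base G a (v.adicCompletion (RatFunc F))) ×
      Base G a (RatFunc.CompletionAtInfty F) |
        (∀ v ∈ hSf.toFinset, (y.1 v).1 ∈ T v) ∧ y.2.1 ∈ Ti} ∈ nhds b := by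
    refine Filter.inter_mem ?_ ?_
    · have h1 : ∀ v ∈ hSf.toFinset, {y : (∀ v : HeightOneSpectrum F[X],
          Base G a (v.adicCompletion (RatFunc F))) × Base G a (RatFunc.CompletionAtInfty F) |
            (y.1 v).1 ∈ T v} ∈ nhds b := by
        intro v _
        have hc : Continuous (fun y : (∀ v : HeightOneSpectrum F[X],
            Base G a (v.adicCompletion (RatFunc F))) × Base G a (RatFunc.CompletionAtInfty F) =>
              (y.1 v).1) :=
          continuous_subtype_val.comp ((continuous_apply v).comp continuous_fst)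
        exact hc.continuousAt.preimage_mem_nhds (hT v)
      have h2 := (Filter.biInter_finset_mem hSf.toFinset).2 h1
      refine Filter.mem_of_superset h2 (fun y hy v hv => ?_)
      exact Set.mem_iInter₂.1 hy v hv
    · have hc : Continuous (fun y : (∀ v : HeightOneSpectrum F[X],
          Base G a (v.adicCompletion (RatFunc F))) × Base G a (RatFunc.CompletionAtInfty F) =>
            y.2.1) := continuous_subtype_val.comp continuous_snd
      exact hc.continuousAt.preimage_mem_nhds hTi
  obtain ⟨y, hy, c, rfl⟩ := mem_closure_iff_nhds.1 (h b) _ hR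
  obtain ⟨z, hz1, hz0, hz, hzN, hzi⟩ := hTc c.1 (fun v hv => hy.1 v hv) hy.2
  let Z : Cone G a k (RatFunc F) := ⟨(c.1, z), ⟨c.2.1, hz1⟩, hz0, hz⟩
  refine ⟨_, hW ⟨hVW ?_, ?_⟩, ⟨Z, rfl⟩⟩
  · intro v hv
    apply hUV v
    exact hzN v (hSf.mem_toFinset.2 hv)
  · apply hU2W
    exact hzi

lemma base_affine {F : Type*} [Field F] [DecidableEq (RatFunc F)] {m s : ℕ}
    (a : Fin s → MvPolynomial (Fin m) (RatFunc F)) : BaseWA ∅ a := by
  classical
  intro x
  rw [mem_closure_iff_nhds]
  intro W hW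
  rw [nhds_prod_eq, Filter.mem_prod_iff] at hW
  obtain ⟨W1, hW1, W2, hW2, hW⟩ := hW
  rw [nhds_pi, Filter.mem_pi] at hW1
  obtain ⟨S, hSf, V, hV, hVW⟩ := hW1
  have hVU : ∀ v : HeightOneSpectrum F[X], ∃ U ∈ nhds (x.1 v).1,
      Subtype.val ⁻¹' U ⊆ V v := by
    intro v
    exact (mem_nhds_subtype _ _ _).1 (hV v)
  choose U hU hUV using hVU
  obtain ⟨U2, hU2, hU2W⟩ := (mem_nhds_subtype _ _ _).1 hW2
  have hO : {u : Fin m → RatFunc.CompletionAtInfty F | ∀ i, MvPolynomial.aeval u (a i) ≠ 0} ∈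
      nhds x.2.1 := by
    have h3 : IsOpen {u : Fin m → RatFunc.CompletionAtInfty F |
        ∀ i, MvPolynomial.aeval u (a i) ≠ 0} := by
      have h4 : {u : Fin m → RatFunc.CompletionAtInfty F | ∀ i, MvPolynomial.aeval u (a i) ≠ 0} =
          ⋂ i : Fin s, {u : Fin m → RatFunc.CompletionAtInfty F |
            MvPolynomial.aeval u (a i) ≠ 0} := by
        ext u
        simp
      rw [h4]
      exact isOpen_iInter_of_finite
        (fun i => isOpen_ne.preimage (Pool.Agent.H598.FI.cont_aeval (a i)))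
    exact h3.mem_nhds x.2.2.2
  obtain ⟨c, hc, hci⟩ := Pool.Agent.H598.FI.wa_affine hSf.toFinset (fun v => (x.1 v).1) x.2.1 U hU
    (U2 ∩ {u | ∀ i, MvPolynomial.aeval u (a i) ≠ 0}) (Filter.inter_mem hU2 hO)
  let C : Base ∅ a (RatFunc F) := ⟨c, fun g hg => absurd hg (Set.notMem_empty g), fun i h0 => by
    apply hci.2 i
    rw [Pool.Agent.H598.FI.aeval_alg, h0, map_zero]⟩
  refine ⟨_, hW ⟨hVW ?_, ?_⟩, ⟨C, rfl⟩⟩
  · intro v hv
    apply hUV v
    exact hc v (hSf.mem_toFinset.2 hv)
  · apply hU2W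
    exact hci.1

lemma ch_ne {k : ℕ} {F : Type*} [Field F] (hchar : k < ringChar F) :
    ∀ i : ℕ, 1 ≤ i → i ≤ k → ((i : ℕ) : F) ≠ 0 := by
  intro i h1 h2 h0
  have h3 : ringChar F ∣ i := (ringChar.spec F i).1 h0
  have := Nat.le_of_dvd (by omega) h3
  omega

lemma affine_wa {k : ℕ} (hk : 2 ≤ k) {F : Type*} [Field F] [Fintype F]
    [DecidableEq (RatFunc F)] (hchar : k < ringChar F)
    (hq : (8 * k) ^ (k * 2 ^ k) ≤ Fintype.card F) {m s : ℕ} (hs : 2 * k ≤ s)
    (a : Fin s → MvPolynomial (Fin m) (RatFunc F)) (b : MvPolynomial (Fin m) (RatFunc F)) :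
    AffineWA a b k := by
  refine Pool.Agent.H598.FI.dense_of _ (fun x S U hU Ui hUi => ?_)
  have hVU : ∀ v : HeightOneSpectrum F[X], ∃ N ∈ nhds (x.1 v).1,
      Subtype.val ⁻¹' N ⊆ U v := fun v => (mem_nhds_subtype _ _ _).1 (hU v)
  choose N hN hNU using hVU
  obtain ⟨Ni, hNi, hNiU⟩ := (mem_nhds_subtype _ _ _).1 hUi
  obtain ⟨c, z, h1, h2, h3, h4, h5⟩ := Pool.Agent.H598.FI.aff_explicit hk (ch_ne hchar)
    (Pool.Agent.H598.FQ.big_of_le hk hq) hs a b S (fun v => (x.1 v).1)
    (fun v => (x.1 v).2.1.1) (fun v => (x.1 v).2.1.2) (fun v => (x.1 v).2.2) x.2.1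
    x.2.2.1.1 x.2.2.1.2 x.2.2.2 N hN Ni hNi
  exact ⟨⟨(c, z), ⟨h1, h2⟩, h3⟩, fun v hv => hNU v (h4 v hv), hNiU h5⟩

lemma forms_wa {k : ℕ} (hk : 2 ≤ k) {F : Type*} [Field F] [Fintype F]
    [DecidableEq (RatFunc F)] (hchar : k < ringChar F)
    (hq : (8 * k) ^ (k * 2 ^ k) ≤ Fintype.card F) {m s : ℕ} (hs : 2 * k + 1 ≤ s)
    (Φ : Fin s → MvPolynomial (Fin m) (RatFunc F)) (hΦ : ∀ i, (Φ i).IsHomogeneous k)
    (β : Fin m → Fin s) (hβ : ∀ i, ∀ j ∈ (Φ i).vars, β j = i) : FormsWA Φ := by
  refine Pool.Agent.H598.FI.dense_of _ (fun x S U hU Ui hUi => ?_)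
  have hVU : ∀ v : HeightOneSpectrum F[X], ∃ N ∈ nhds (x.1 v).1,
      Subtype.val ⁻¹' N ⊆ U v := fun v => (mem_nhds_subtype _ _ _).1 (hU v)
  choose N hN hNU using hVU
  obtain ⟨Ni, hNi, hNiU⟩ := (mem_nhds_subtype _ _ _).1 hUi
  obtain ⟨c, h1, h2, h3, h4⟩ := Pool.Agent.H598.FI.forms_explicit hk (ch_ne hchar)
    (Pool.Agent.H598.FQ.big_of_le hk hq) hs Φ hΦ β hβ S (fun v => (x.1 v).1)
    (fun v => (x.1 v).2.1) (fun v => (x.1 v).2.2) x.2.1 x.2.2.1 x.2.2.2 N hN Ni hNi
  exact ⟨⟨c, h1, h2⟩, fun v hv => hNU v (h3 v hv), hNiU h4⟩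

/-- Let `k ≥ 2`, let `F` be a finite field of characteristic larger than `k` with
`q ≥ (8 k) ^ (k 2 ^ k)` elements, `K = F(t)`, and let `a_1, ..., a_s` be ARBITRARY polynomials over
`K` in any number `m ≥ 0` of variables `u`, `s ≥ 2 k + 1`. Let `V` be the family of the hypersurfaces
`a_1(u) x_1 ^ k + ... + a_s(u) x_s ^ k = 0` of the projective space of dimension `s - 1`, over the
set of the `u` with `a_1(u) ... a_s(u) ≠ 0` in affine space (2) or in any affine variety (1).

(1) If the base satisfies weak approximation (all places), then the total space `V` satisfies weak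
approximation (all places), also the cones over its fibres.

(2) Over the affine space: the `K`-points of `V` are dense in the product over ALL places `v` of `K`
of the spaces `V(K_v)`; the same for the cones.

(3) The `K`-points of `V` exist over every `K`-point of the base.

(4) If `s ≥ 2 k`, the same holds for the families of affine hypersurfaces
`a_1(u) x_1 ^ k + ... + a_s(u) x_s ^ k = b(u)`, with arbitrary polynomials `a_i`, `b` in `u`, where
the `a_i(u)` and `b(u)` are not zero.

(5) If `Φ_1, ..., Φ_s` are arbitrary forms of degree `k` in disjoint sets of variables (`β j` is the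
number of the set containing the `j`-th variable), the same holds for the solutions of
`Φ_1 + ... + Φ_s = 0` with all `Φ_i` not zero. -/
theorem result (k : ℕ) (hk : 2 ≤ k) (F : Type*) [Field F] [Fintype F] [DecidableEq (RatFunc F)]
    (hchar : k < ringChar F) (hq : (8 * k) ^ (k * 2 ^ k) ≤ Fintype.card F) :
    (∀ m s : ℕ, 2 * k + 1 ≤ s → ∀ (a : Fin s → MvPolynomial (Fin m) (RatFunc F))
      (G : Set (MvPolynomial (Fin m) (RatFunc F))), BaseWA G a → ConeWA G a k ∧ TotalWA G a k) ∧
    (∀ m s : ℕ, 2 * k + 1 ≤ s → ∀ a : Fin s → MvPolynomial (Fin m) (RatFunc F),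
      ConeWA ∅ a k ∧ TotalWA ∅ a k) ∧
    (∀ m s : ℕ, 2 * k + 1 ≤ s → ∀ (a : Fin s → MvPolynomial (Fin m) (RatFunc F))
      (G : Set (MvPolynomial (Fin m) (RatFunc F))), ∀ u ∈ Base G a (RatFunc F),
      ∃ p ∈ Cone G a k (RatFunc F), p.1 = u) ∧
    (∀ m s : ℕ, 2 * k ≤ s → ∀ (a : Fin s → MvPolynomial (Fin m) (RatFunc F))
      (b : MvPolynomial (Fin m) (RatFunc F)), AffineWA a b k) ∧
    (∀ m s : ℕ, 2 * k + 1 ≤ s → ∀ Φ : Fin s → MvPolynomial (Fin m) (RatFunc F),
      (∀ i, (Φ i).IsHomogeneous k) → ∀ β : Fin m → Fin s, (∀ i, ∀ j ∈ (Φ i).vars, β j = i) →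
      FormsWA Φ) := by
  have h1 : ∀ m s : ℕ, 2 * k + 1 ≤ s → ∀ (a : Fin s → MvPolynomial (Fin m) (RatFunc F))
      (G : Set (MvPolynomial (Fin m) (RatFunc F))), BaseWA G a →
        ConeWA G a k ∧ TotalWA G a k := by
    intro m s hs a G h
    have h2 := cone_of_base hk hchar hq hs h
    exact ⟨h2, total_of_cone h2⟩
  refine ⟨h1, fun m s hs a => h1 m s hs a ∅ (base_affine a), ?_,
    fun m s hs a b => affine_wa hk hchar hq hs a b,
    fun m s hs Φ hΦ β hβ => forms_wa hk hchar hq hs Φ hΦ β hβ⟩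
  intro m s hs a G u hu
  obtain ⟨z, hz0, hz⟩ := Pool.Agent.H598.DG.diag_ratFunc hk (ch_ne hchar)
    (Pool.Agent.H598.FQ.big_of_le hk hq) hs (fun i => MvPolynomial.aeval u (a i))
  exact ⟨(u, z), ⟨hu, hz0, hz⟩, rfl⟩

end Pool.Agent.Results.MP_12adaf_nt.FibrationsInDiagonals
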