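import Pool.Agent.H436.CB.Fib

/-!
# The closure of the rational points of fibre products of conic bundles with at most eight
# degenerate fibres (helper436)

`K` is a field of characteristic zero, for example a number field, and `X` is the fibre product of
`r` conic bundles over the affine space of the variables `z = (z₁, …, z_n)`,

  `x_i² - A_i(z) y_i² = B_i(z)`, `i = 1, …, r`.

So `X` is geometrically rationally connected of dimension `n + r`. For each variable `z_j` and each
`i` we suppose that `A_i` or `B_i` does not contain `z_j`, and we let `d_ij` be the degree in `z_j`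
of the other one. Over the line with the coordinate `z_j` the `i`-th conic bundle has in general
`2 ⌈d_ij / 2⌉` degenerate geometric fibres. The only hypothesis is that for each `j` their number,
for all `i` together, is at most eight and that at most three of the `d_ij` are not zero (so the
case `(2, 2, 2, 2)` is excluded). There is no condition on the singularities. Examples:

* `n = 1`: the conic bundle surfaces `x² - a y² = f(t)` with `deg f ≤ 8`, with up to eight
  degenerate geometric fibres; the threefolds `x₁² - a₁ y₁² = f₁(t)`, `x₂² - a₂ y₂² = f₂(t)` with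
  `(deg f₁, deg f₂)` at most `(6, 2)` or `(4, 4)`; the fourfolds with three equations and degrees
  at most `(4, 2, 2)`;
* `n ≥ 2`: `x² - A(z₁, …, z_m) y² = B(z_{m+1}, …, z_n)` with `A`, `B` of degree at most eight in
  each variable, and the fibre products above with coefficients `a_i` depending on other variables;
* the quadric bundles `∑ a_i w_i² = f(z)` with `f` of degree at most eight in each variable (all
  but two of the `w_i` are regarded as further variables `z_j`).

We show that there is a divisor `N(z) = 0` such that, for every finite set of real and `p`-adic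
places (of degree one, over different `p`, at least one of them `p`-adic and at most one real; for
`K = ℚ` these are all finite sets of places with a `p`-adic one), the closure of `X(K)` in the
product of the `X(K_v)` is, outside this divisor, the inverse image of an open subset of the
product of the `K_v^n`. In particular it is open there, and it is a union of fibres, as for the
Brauer-Manin set (`Br X / Br K` is finite and the smooth fibres satisfy weak approximation).

Idea of the proof. (1) One conic bundle `x² - a y² = f(t)`, `deg f = 8`. Let `P` be a rational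
point over `t = 0`. We may suppose that `P = (1, 0)` and `f = 1 + f₂ t² + ⋯`. We look for
`w(t) = 1 + w₁ t + ⋯ + w₄ t⁴` over `K(√a)` with `Norm w ≡ f` modulo `t⁷`. If the irrational part `s`
of `w₁` is fixed, these `w` are the points of a curve `Y² = a² + c x² + d x³ + e x⁴` of genus one.
Then `f - Norm w = t⁷ (c₇ + c₈ t)` vanishes at one further rational value of `t`, and over this
value there is a rational point of `X`. If `w` is close to the rational point at `x = 0`, then
this value of `t` is close to `0`, and it takes all the local values close to `0`. The difference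
of the two points at `x = 0` has infinite order for all but countably many local values of `s`, if
a covariant of `f` does not vanish at the point. A multiple of it which is close to the origin at a
`p`-adic place is never a torsion point, also for the nearby curves of the family, and so the
rational points are dense in neighbourhoods of the point at all the places, whose size does not
depend on the curve. (2) For the other types we solve one of the equations identically by a
rational map `t = p(u) / q(u)` of degree two or four, and the other equations pulled back to the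
`u`-line have total degree at most eight again. (3) If the covariants which have to be nonzero
vanish identically, they are solutions of a differential equation, and `f` is a constant multiple
of a power, so that the equation is trivial or reduces to a simpler one. (4) The moves in the
directions of the `z_j` fill a neighbourhood.
-/

set_option autoImplicit false

namespace Pool.Agent.Results.MP_12adaf_nt.FibreProductsOfConicBundles

open MvPolynomial Pool.Agent.Y720.MZ Pool.Agent.H436.CB

universe u v w

/-- The point `(z, x, y)` lies on the fibre product of the conic bundles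
`x_i² - A_i(z) y_i² = B_i(z)`. -/
def OnX {F : Type v} [Field F] {n r : ℕ} (A B : Fin r → MvPolynomial (Fin n) F)
    (P : (Fin n → F) × (Fin r → F) × (Fin r → F)) : Prop :=
  ∀ i, P.2.1 i ^ 2 - eval P.1 (A i) * P.2.2 i ^ 2 = eval P.1 (B i)

/-- The image of a point under an embedding of fields. -/
def image {K : Type v} {F : Type w} [Field K] [Field F] (φ : K →+* F) {n r : ℕ}
    (P : (Fin n → K) × (Fin r → K) × (Fin r → K)) : (Fin n → F) × (Fin r → F) × (Fin r → F) :=
  (fun j => φ (P.1 j), fun i => φ (P.2.1 i), fun i => φ (P.2.2 i))

/-- The degree `d_ij`: if one of `A_i`, `B_i` does not contain `z_j`, this is the degree in `z_j`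
of the other one. -/
noncomputable def deg {K : Type v} [Field K] {n r : ℕ} (A B : Fin r → MvPolynomial (Fin n) K)
    (i : Fin r) (j : Fin n) : ℕ :=
  (A i).degreeOf j + (B i).degreeOf j

section aux

variable {K : Type u} [Field K] {n r : ℕ} {A B : Fin r → MvPolynomial (Fin n) K}

lemma dist_image {F : Type} [NormedField F] (φ : K →+* F)
    (P : (Fin n → K) × (Fin r → K) × (Fin r → K))
    (T : (Fin n → F) × (Fin r → F) × (Fin r → F)) {η : ℝ} (hη : 0 < η) :
    dist T (image φ P) < η ↔ (∀ j, ‖φ (P.1 j) - T.1 j‖ < η) ∧
      ∀ i, ‖φ (P.2.1 i) - T.2.1 i‖ < η ∧ ‖φ (P.2.2 i) - T.2.2 i‖ < η := by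
  rw [dist_comm, Prod.dist_eq, Prod.dist_eq, max_lt_iff, max_lt_iff, dist_pi_lt_iff hη,
    dist_pi_lt_iff hη, dist_pi_lt_iff hη]
  simp only [dist_eq_norm, image, forall_and]

end aux

/-- **The closure of the rational points of a fibre product of conic bundles.** -/
theorem result :
    ∀ (K : Type u) [Field K] [CharZero K] (n r : ℕ) (A B : Fin r → MvPolynomial (Fin n) K),
      -- the generic fibres are smooth conics
      (∀ i, A i ≠ 0 ∧ B i ≠ 0) →
      -- for each variable, one of the coefficients of each conic bundle does not contain it
      (∀ i j, (A i).degreeOf j = 0 ∨ (B i).degreeOf j = 0) →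
      -- in each variable there are at most eight degenerate fibres, and the type is
      -- not `(2, 2, 2, 2)`
      (∀ j, ∑ i, (deg A B i j + 1) / 2 ≤ 4 ∧
        (Finset.univ.filter fun i => deg A B i j ≠ 0).card ≤ 3) →
      -- then there is a divisor of the base
      ∃ N : MvPolynomial (Fin n) K, N ≠ 0 ∧
        -- such that for all finite sets of places
        ∀ (ι : Type) [Finite ι] [Nonempty ι] (p : ι → ℕ) [∀ k, Fact (p k).Prime],
          Function.Injective p → ∀ σ : ∀ k, K →+* ℚ_[p k],
            -- outside this divisor the closure of the rational points in the product of the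
            -- `X(ℚ_[p k])` is the inverse image of an open set of the base
            (∃ U : Set (∀ k, Fin n → ℚ_[p k]), IsOpen U ∧
              ∀ T : ∀ k, (Fin n → ℚ_[p k]) × (Fin r → ℚ_[p k]) × (Fin r → ℚ_[p k]),
                (∀ k, OnX (fun i => map (σ k) (A i)) (fun i => map (σ k) (B i)) (T k) ∧
                  eval (T k).1 (map (σ k) N) ≠ 0) →
                (T ∈ closure {T | ∃ P, OnX A B P ∧ T = fun k => image (σ k) P} ↔
                  (fun k => (T k).1) ∈ U)) ∧
            -- and the same with a real place
            ∀ τ : K →+* ℝ, ∃ U : Set ((Fin n → ℝ) × ∀ k, Fin n → ℚ_[p k]), IsOpen U ∧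
              ∀ T : ((Fin n → ℝ) × (Fin r → ℝ) × (Fin r → ℝ)) ×
                  ∀ k, (Fin n → ℚ_[p k]) × (Fin r → ℚ_[p k]) × (Fin r → ℚ_[p k]),
                OnX (fun i => map τ (A i)) (fun i => map τ (B i)) T.1 →
                eval T.1.1 (map τ N) ≠ 0 →
                (∀ k, OnX (fun i => map (σ k) (A i)) (fun i => map (σ k) (B i)) (T.2 k) ∧
                  eval (T.2 k).1 (map (σ k) N) ≠ 0) →
                (T ∈ closure {T | ∃ P, OnX A B P ∧
                    T = (image τ P, fun k => image (σ k) P)} ↔
                  (T.1.1, fun k => (T.2 k).1) ∈ U) := by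
  intro K _ _ n r A B hAB hc hT
  obtain ⟨N, hN, hmain⟩ := main_cl (A := A) (B := B) (fun i => (hAB i).1) (fun i => (hAB i).2) hc hT
  refine ⟨N, hN, ?_⟩
  intro ι _ _ p _ hinj σ
  have : Fintype ι := Fintype.ofFinite ι
  refine ⟨?_, fun τ => ?_⟩
  · obtain ⟨U, hU, h⟩ := hmain ι (fun k => ℚ_[p k]) σ (M8_of_HW (hw_p hinj σ) (dn_p hinj σ))
      (dn_p hinj σ)
    refine ⟨U, hU, fun T hT => ?_⟩
    rw [← h (fun k => (T k).1) (fun k => (T k).2.1) (fun k => (T k).2.2) (fun k => (hT k).2)
      (fun k => (hT k).1), Metric.mem_closure_iff, Lim]
    refine forall_congr' fun η => ?_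
    rw [gt_iff_lt]
    refine imp_congr_right fun hη => ?_
    constructor
    · rintro ⟨_, ⟨P, hP, rfl⟩, h2⟩
      rw [dist_pi_lt_iff hη] at h2
      exact ⟨P.1, P.2.1, P.2.2, hP, fun k => (dist_image (σ k) P (T k) hη).1 (h2 k)⟩
    · rintro ⟨z', R', S', hP, h2⟩
      refine ⟨_, ⟨(z', R', S'), hP, rfl⟩, ?_⟩
      rw [dist_pi_lt_iff hη]
      exact fun k => (dist_image (σ k) (z', R', S') (T k) hη).2 (h2 k)
  · obtain ⟨U, hU, h⟩ := hmain (Option ι) (Lv p) (sv σ τ)
      (M8_of_HW (hw_all hinj σ τ) (dn_all hinj σ τ)) (dn_all hinj σ τ)
    let G : (Fin n → ℝ) × (∀ k, Fin n → ℚ_[p k]) → ∀ v : Option ι, Fin n → Lv p v := fun ζ v =>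
      match v with
      | none => ζ.1
      | some k => ζ.2 k
    have hGc : Continuous G := by
      refine continuous_pi fun v => ?_
      rcases v with _ | k
      · exact continuous_fst
      · exact (continuous_apply k).comp continuous_snd
    refine ⟨G ⁻¹' U, hU.preimage hGc, fun T hT1 hT2 hT3 => ?_⟩
    let R : ∀ v : Option ι, Fin r → Lv p v := fun v =>
      match v with
      | none => T.1.2.1
      | some k => (T.2 k).2.1
    let S : ∀ v : Option ι, Fin r → Lv p v := fun v =>
      match v with
      | none => T.1.2.2
      | some k => (T.2 k).2.2
    have h1 := h (G (T.1.1, fun k => (T.2 k).1)) R S (fun v => by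
      rcases v with _ | k
      · exact hT2
      · exact (hT3 k).2) (fun v => by
      rcases v with _ | k
      · exact hT1
      · exact (hT3 k).1)
    rw [Set.mem_preimage, ← h1, Metric.mem_closure_iff, Lim]
    refine forall_congr' fun η => ?_
    rw [gt_iff_lt]
    refine imp_congr_right fun hη => ?_
    constructor
    · rintro ⟨_, ⟨P, hP, rfl⟩, h2⟩
      rw [Prod.dist_eq, max_lt_iff, dist_pi_lt_iff hη] at h2
      refine ⟨P.1, P.2.1, P.2.2, hP, fun v => ?_⟩
      rcases v with _ | k
      · exact (dist_image τ P T.1 hη).1 h2.1
      · exact (dist_image (σ k) P (T.2 k) hη).1 (h2.2 k)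
    · rintro ⟨z', R', S', hP, h2⟩
      refine ⟨_, ⟨(z', R', S'), hP, rfl⟩, ?_⟩
      rw [Prod.dist_eq, max_lt_iff, dist_pi_lt_iff hη]
      exact ⟨(dist_image τ (z', R', S') T.1 hη).2 (h2 none),
        fun k => (dist_image (σ k) (z', R', S') (T.2 k) hη).2 (h2 (some k))⟩

end Pool.Agent.Results.MP_12adaf_nt.FibreProductsOfConicBundles
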